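import Mathlib

/-! # DIO (MP_9ca527_nt), Part A: definitions.  Architect: helper40. -/

set_option autoImplicit false

namespace Pool.Agent.DIO

open Real

/-- Diophantine triple `a < b < c`. -/
def DTriple (a b c : ℕ) : Prop :=
  0 < a ∧ a < b ∧ b < c ∧ IsSquare (a * b + 1) ∧ IsSquare (a * c + 1) ∧ IsSquare (b * c + 1)

/-- `d` extends the triple. -/
def Extends (a b c d : ℕ) : Prop :=
  0 < d ∧ d ≠ a ∧ d ≠ b ∧ d ≠ c ∧
    IsSquare (a * d + 1) ∧ IsSquare (b * d + 1) ∧ IsSquare (c * d + 1)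

/-- `r * s * t` for the triple. -/
def rst (a b c : ℕ) : ℕ := Nat.sqrt (a * b + 1) * Nat.sqrt (a * c + 1) * Nat.sqrt (b * c + 1)

/-- The assertion of Q1 for one triple. -/
def UniqueExt (a b c : ℕ) : Prop :=
  ∀ d : ℕ, Extends a b c d →
    (d : ℤ) = a + b + c + 2 * a * b * c + 2 * rst a b c ∨
    (d : ℤ) = a + b + c + 2 * a * b * c - 2 * rst a b c

/-- Euler triples `{a, b, a + b + 2 r}`, `r² = a b + 1` (the regular triples: `d₋ = 0`).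
Then `s = a + r`, `t = b + r`. -/
def Euler (a b c r : ℕ) : Prop := 0 < a ∧ a < b ∧ r * r = a * b + 1 ∧ c = a + b + 2 * r

/-- `(z_m, x_m)` with `z_m √a + x_m √c = (z0 √a + x0 √c) (s + √(ac))^m`. -/
def sqg (a c s z0 x0 : ℤ) : ℕ → ℤ × ℤ
  | 0 => (z0, x0)
  | m + 1 => (s * (sqg a c s z0 x0 m).1 + c * (sqg a c s z0 x0 m).2,
      s * (sqg a c s z0 x0 m).2 + a * (sqg a c s z0 x0 m).1)

/-- General situation: `a < b < c`, `(z, x)` and `(z, y)` come from small solutions `(z0, x0)`,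
`(z1, y1)` of the two Pell equations. -/
structure Meet1 (a b c r s t : ℕ) (z0 x0 z1 y1 x y z : ℤ) (m n : ℕ) : Prop where
  ha : 0 < a
  hab : a < b
  hbc : b < c
  hr : r * r = a * b + 1
  hs : s * s = a * c + 1
  ht : t * t = b * c + 1
  x0pos : 0 < x0
  y1pos : 0 < y1
  p0 : a * z0 ^ 2 - c * x0 ^ 2 = (a : ℤ) - c
  p1 : b * z1 ^ 2 - c * y1 ^ 2 = (b : ℤ) - c
  h0 : 4 * z0 ^ 2 < (c : ℤ) ^ 2
  h1 : 4 * z1 ^ 2 < (c : ℤ) ^ 2
  hz : 1 < z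
  e1 : sqg a c s z0 x0 m = (z, x)
  e2 : sqg b c t z1 y1 n = (z, y)

/-- The situation for an Euler triple. -/
structure Meet0 (a b c r : ℕ) (x y z : ℤ) (m n : ℕ) (ε ε' : ℤ) : Prop where
  hε : ε = 1 ∨ ε = -1
  par : (Even m ∧ Even n ∧ ε' = ε) ∨ (Odd m ∧ Odd n ∧ ε' = -ε)
  hx : 0 < x
  hy : 0 < y
  hz : 1 < z
  e1 : sqg a c (a + r) ε 1 m = (z, x)
  e2 : sqg b c (b + r) ε' 1 n = (z, y)

/-- `s + √(ac)` -/
noncomputable def alp (a c s : ℕ) : ℝ := s + √((a * c : ℕ) : ℝ)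

/-- the third algebraic number `√b (x0 √c + z0 √a) / (√a (y1 √c + z1 √b))` -/
noncomputable def alp3 (a b c : ℕ) (z0 x0 z1 y1 : ℤ) : ℝ :=
  √(b : ℝ) * (x0 * √(c : ℝ) + z0 * √(a : ℝ)) / (√(a : ℝ) * (y1 * √(c : ℝ) + z1 * √(b : ℝ)))

end Pool.Agent.DIO
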