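import Pool.Agent.Helper40_Dio.Defs

/-! # DIO (MP_9ca527_nt): statements of the modules.  Architect: helper40.
Plan and proofs: /team-store/PLAN_DIO.md -/

set_option autoImplicit false

namespace Pool.Agent.DIO

open Real

/-! ## Part B -/

/-- SIE: Siegel's lemma over an order of rank 4. -/
def SieStatement : Prop :=
  ∀ (S : Type) [CommRing S] (O : Ord4 S) (ι κ : Type) [Fintype ι] [Fintype κ]
    (a : κ → ι → S) (H : ℝ), 1 ≤ H → (∀ k i j, |O.σ j (a k i)| ≤ H) →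
    8 * Fintype.card κ ≤ Fintype.card ι → 0 < Fintype.card ι →
    ∃ p : ι → ℤ, p ≠ 0 ∧ (∀ i, |(p i : ℝ)| ≤ Fintype.card ι * H) ∧
      ∀ k, ∑ i, (p i : S) * a k i = 0

/-- VDM: Vandermonde. -/
def VdmStatement : Prop :=
  ∀ (ι : Type) [Fintype ι] (v : ι → ℝ) (p : ι → ℤ), Function.Injective v → (∀ i, v i ≠ 0) →
    (∀ l : ℕ, 1 ≤ l → l ≤ Fintype.card ι → ∑ i, (p i : ℝ) * v i ^ l = 0) → p = 0

/-- ROL: Rolle with multiplicities (error of Hermite interpolation). -/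
def RolStatement : Prop :=
  ∀ f : ℝ → ℝ, (∀ n : ℕ, ContDiff ℝ n f) → ∀ h k : ℕ, 1 ≤ h → 1 ≤ k →
    (∀ l i : ℕ, 1 ≤ l → l ≤ h → i < k → iteratedDeriv i f (l : ℝ) = 0) →
    ∀ R x : ℝ, (h : ℝ) ≤ R → 0 ≤ x → x ≤ R →
      ∃ ξ : ℝ, 0 ≤ ξ ∧ ξ ≤ R ∧
        f x * ((h * k).factorial : ℝ) =
          iteratedDeriv (h * k) f ξ * ∏ l ∈ Finset.Icc 1 h, (x - (l : ℝ)) ^ k

/-- HIN: Hermite interpolation with a crude bound (confluent Vandermonde matrix is integral). -/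
def HinStatement : Prop :=
  ∀ h k : ℕ, 1 ≤ h → 1 ≤ k → ∀ (d : ℕ → ℕ → ℝ) (η : ℝ), 0 ≤ η →
    (∀ l i : ℕ, 1 ≤ l → l ≤ h → i < k → |d l i| ≤ η) →
    ∃ P : Polynomial ℝ, P.natDegree < h * k ∧
      (∀ l i : ℕ, 1 ≤ l → l ≤ h → i < k →
        (Polynomial.derivative^[i] P).eval (l : ℝ) = d l i) ∧
      ∀ R x : ℝ, (h : ℝ) ≤ R → 0 ≤ x → x ≤ R →
        |P.eval x| ≤ η * (2 * ((h * k : ℕ) : ℝ) * R) ^ ((h * k) ^ 2 + 2 * (h * k))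

/-- ALE: the analytic lemma (exponential sum with many approximate zeros is small). -/
def AleStatement : Prop :=
  ∀ (ι : Type) [Fintype ι] (c w : ι → ℝ) (C0 W η : ℝ) (h k : ℕ), 1 ≤ h → 1 ≤ k → 0 ≤ W → 0 ≤ η →
    ∑ i, |c i| ≤ C0 → (∀ i, |w i| ≤ W) →
    (∀ l j : ℕ, 1 ≤ l → l ≤ h → j < k → |∑ i, c i * w i ^ j * exp (l * w i)| ≤ η) →
    ∀ R x : ℝ, (h : ℝ) ≤ R → 0 ≤ x → x ≤ R →
      |∑ i, c i * exp (x * w i)| ≤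
        C0 * (W * R) ^ (h * k) * exp (W * R) / ((h * k).factorial : ℝ) +
          η * (2 * ((h * k : ℕ) : ℝ) * R) ^ ((h * k) ^ 2 + 2 * (h * k))

/-- INI: the auxiliary function. -/
def IniStatement : Prop :=
  ∀ (S : Type) [CommRing S] (O : Ord4 S) (d : BData O) (L k h : ℕ), 1 ≤ L → 1 ≤ h →
    8 * ((k + 1) ^ 2 * h) ≤ (L + 1) ^ 3 →
    ∃ p : Idx L → ℤ, p ≠ 0 ∧ (∀ x, |(p x : ℝ)| ≤ exp (siz0 L k h d.Q d.B)) ∧ Zero d L p k h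

/-- EXT: one extrapolation step. -/
def ExtStatement : Prop :=
  ∀ (S : Type) [CommRing S] (O : Ord4 S) (d : BData O) (L k h h' : ℕ) (H0 : ℝ)
    (p : Idx L → ℤ), 1 ≤ L → 1 ≤ k → 1 ≤ h → h ≤ h' → (∀ x, |(p x : ℝ)| ≤ exp H0) →
    ExtIneq L k h h' d.Q d.B H0 → Zero d L p (2 * k) h → Zero d L p k h'

/-- PAR: the parameters `L + 1 = P^6`, `k_j = 2^(17-j) P^8`, `h_j = P^(j+1)`. -/
def ParStatement : Prop :=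
  ∃ P0 : ℕ, 2 ≤ P0 ∧ ∀ (P : ℕ) (Q B : ℝ), P0 ≤ P → 1 ≤ Q → (P0 : ℝ) * Q ≤ P →
    (P : ℝ) ^ 60 ≤ B → B ≤ ((P : ℝ) + 1) ^ 60 →
    8 * ((2 ^ 17 * P ^ 8 + 1) ^ 2 * P) ≤ (P ^ 6) ^ 3 ∧
    ∀ j : ℕ, j < 17 → ExtIneq (P ^ 6 - 1) (2 ^ (16 - j) * P ^ 8) (P ^ (j + 1)) (P ^ (j + 2)) Q B
      (siz0 (P ^ 6 - 1) (2 ^ 17 * P ^ 8) P Q B)

/-- BAK: Baker's theorem in the form needed. -/
def BakStatement : Prop :=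
  ∃ C : ℝ, 1 ≤ C ∧ ∀ (S : Type) [CommRing S] (O : Ord4 S) (d : BData O),
    (∀ x y : ℕ × ℕ × ℕ, d.a1 ^ x.1 * d.a2 ^ x.2.1 * d.a3 ^ x.2.2 =
      d.a1 ^ y.1 * d.a2 ^ y.2.1 * d.a3 ^ y.2.2 → x = y) →
    d.B ≤ C * d.Q ^ 60

/-- RNG: the order `ℤ[√p, √q]`. -/
def RngStatement : Prop :=
  ∀ p q : ℕ, ¬ IsSquare p → ¬ IsSquare q → ¬ IsSquare (p * q) →
    ∃ (S : Type) (_ : CommRing S) (O : Ord4 S) (u v : S),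
      u * u = (p : S) ∧ v * v = (q : S) ∧ (∀ j x, O.σ j x = 0 → x = 0) ∧
      O.σ 0 u = √(p : ℝ) ∧ O.σ 0 v = √(q : ℝ) ∧
      O.σ 1 u = -√(p : ℝ) ∧ O.σ 1 v = √(q : ℝ) ∧
      O.σ 2 u = √(p : ℝ) ∧ O.σ 2 v = -√(q : ℝ) ∧
      O.σ 3 u = -√(p : ℝ) ∧ O.σ 3 v = -√(q : ℝ)

end Pool.Agent.DIO
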