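import Pool.Agent.Helper40_Dio.ADefs
import Pool.Agent.Helper40_Dio.Stmt

/-! # DIO (MP_9ca527_nt), Part A: statements of the modules.  Architect: helper40.
Plan and proofs: /team-store/PLAN_DIO_A.md -/

set_option autoImplicit false

namespace Pool.Agent.DIO

open Real

/-- PEL: descent to a small solution of `a z² - c x² = a - c`. -/
def PelStatement : Prop :=
  ∀ a c s z x : ℤ, 0 < a → a < c → 0 < s → s * s = a * c + 1 → 0 < z → 0 < x →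
    a * z ^ 2 - c * x ^ 2 = a - c →
    ∃ (m : ℕ) (z0 x0 : ℤ), 0 < x0 ∧ a * z0 ^ 2 - c * x0 ^ 2 = a - c ∧ 4 * z0 ^ 2 < c ^ 2 ∧
      sqg a c s z0 x0 m = (z, x)

/-- GAP: a Diophantine triple is an Euler triple or comes from a smaller extension. -/
def GapStatement : Prop :=
  ∀ x y z : ℕ, DTriple x y z →
    (∃ r, Euler x y z r) ∨
    ∃ e : ℕ, 0 < e ∧ e ≠ x ∧ e ≠ y ∧ IsSquare (x * e + 1) ∧ IsSquare (y * e + 1) ∧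
      z = x + y + e + 2 * x * y * e + 2 * rst x y e ∧ 4 * x * y * e < z

/-- NSE: an Euler triple has no smaller extension. -/
def NseStatement : Prop :=
  ∀ a b c r d : ℕ, Euler a b c r → d < c → ¬ Extends a b c d

/-- CLZ: classification of the solutions of the two Pell equations for `z`. -/
def ClzStatement : Prop :=
  ∀ a b c r d : ℕ, Euler a b c r → Extends a b c d →
    ∃ (x y z : ℤ) (m n : ℕ) (ε ε' : ℤ), z * z = c * d + 1 ∧ Meet0 a b c r x y z m n ε ε'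

/-- CLY: classification of the solution `(y, x)`. -/
def ClyStatement : Prop :=
  ∀ (a b c r : ℕ) (x y z : ℤ) (m n : ℕ) (ε ε' : ℤ), Euler a b c r →
    Meet0 a b c r x y z m n ε ε' → ∃ l : ℕ, (Even l ↔ Even n) ∧ sqg a b r 1 1 l = (y, x)

/-- CNC: the congruence modulo `c`. -/
def CncStatement : Prop :=
  ∀ (a b c r : ℕ) (x y z : ℤ) (m n : ℕ) (ε ε' : ℤ), Euler a b c r →
    Meet0 a b c r x y z m n ε ε' →
    ∃ K : ℤ, 2 * K = (m : ℤ) ^ 2 - (n : ℤ) ^ 2 ∧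
      (c : ℤ) ∣ K * (a * (a + r)) + ((n : ℤ) ^ 2 + ε * m + ε' * n)

/-- CNB: the congruence modulo `b`. -/
def CnbStatement : Prop :=
  ∀ (a b c r : ℕ) (x y z : ℤ) (l m n : ℕ) (ε ε' : ℤ), Euler a b c r →
    Meet0 a b c r x y z m n ε ε' → (Even l ↔ Even n) → sqg a b r 1 1 l = (y, x) →
    ∃ K : ℤ, 2 * K = (l : ℤ) ^ 2 - (n : ℤ) ^ 2 ∧
      (b : ℤ) ∣ K * (a * r) + ((l : ℤ) - (n : ℤ) ^ 2 - ε' * n)

/-- SZ1: sizes of the indices `m`, `n`. -/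
def Sz1Statement : Prop :=
  ∀ (a b c r : ℕ) (x y z : ℤ) (m n : ℕ) (ε ε' : ℤ), Euler a b c r →
    Meet0 a b c r x y z m n ε ε' →
    1 ≤ n ∧ n ≤ m ∧ m ≤ 2 * n ∧ ¬ (m = 4 ∧ n = 2 ∧ ε = -1) ∧
      alp a c (a + r) ^ m ≤ 8 * alp b c (b + r) ^ n

/-- SZ2: size of the index `l`. -/
def Sz2Statement : Prop :=
  ∀ (a b c r : ℕ) (x y z : ℤ) (l m n : ℕ) (ε ε' : ℤ), Euler a b c r →
    Meet0 a b c r x y z m n ε ε' → sqg a b r 1 1 l = (y, x) → 1 ≤ n →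
    n ≤ l ∧ l ≤ 4 * n ∧ alp a b r ^ l ≤ 3 * alp b c (b + r) ^ n

/-- LAM: the linear form is small (general situation). -/
def LamStatement : Prop :=
  ∀ (a b c r s t : ℕ) (z0 x0 z1 y1 x y z : ℤ) (m n : ℕ),
    Meet1 a b c r s t z0 x0 z1 y1 x y z m n → 100 ≤ m + n →
    |(m : ℝ) * log (alp a c s) - (n : ℝ) * log (alp b c t) + log (alp3 a b c z0 x0 z1 y1)| ≤
      exp (-((m : ℝ) + n))

/-- IND: multiplicative independence. -/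
def IndStatement : Prop :=
  ∀ (a b c r s t : ℕ) (z0 x0 z1 y1 x y z : ℤ) (m n : ℕ),
    Meet1 a b c r s t z0 x0 z1 y1 x y z m n →
    ∀ i j : ℕ × ℕ × ℕ,
      alp a c s ^ i.1 * alp b c t ^ i.2.1 * alp3 a b c z0 x0 z1 y1 ^ i.2.2 =
      alp a c s ^ j.1 * alp b c t ^ j.2.1 * alp3 a b c z0 x0 z1 y1 ^ j.2.2 → i = j

/-- APB: Baker applied to Diophantine triples. -/
def ApbStatement : Prop :=
  ∃ C : ℝ, 1 ≤ C ∧ ∀ (a b c r s t : ℕ) (z0 x0 z1 y1 x y z : ℤ) (m n : ℕ),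
    Meet1 a b c r s t z0 x0 z1 y1 x y z m n → ((m : ℝ) + n) ≤ C * (log c) ^ 60

/-- FCT: factorization of an Euler triple. -/
def FctStatement : Prop :=
  ∀ a b c r : ℕ, Euler a b c r → ∃ A B γ δ : ℤ, 0 < A ∧ 0 < B ∧ A < δ ∧ B < γ ∧
    (a : ℤ) = A * B ∧ (c : ℤ) = γ * δ ∧ (a : ℤ) + r = A * γ + 1 ∧ B * δ - A * γ = 2 ∧
    (b : ℤ) = (γ - B) * (δ - A) ∧ (r : ℤ) = A * (γ - B) + 1

/-- AR1: consequences of the congruence modulo `c`. -/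
def Ar1Statement : Prop :=
  ∀ A B γ δ K e : ℤ, 0 < A → 0 < B → A < δ → B < γ → B * δ - A * γ = 2 → 0 < K → 0 ≤ e →
    γ * δ ∣ K * (A * B * (A * γ + 1)) + e →
    ∃ k1 k2 : ℤ, 0 < k1 ∧ 0 < k2 ∧ k1 * γ = 2 * K * A + e * δ ∧ k2 * δ = 2 * K * B + e * γ ∧
      k1 ≤ (2 * K + e) ^ 2 ∧ k2 ≤ (2 * K + e) ^ 2 ∧ δ ≤ (2 * K + e) * γ ∧
      γ * δ ≤ 4 * K ^ 2 * (e + (2 * K + e) ^ 3) * (e + (2 * K + e) ^ 2 * (2 * K + e + 2)) * (A * B)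

/-- AR2: consequences of both congruences. -/
def Ar2Statement : Prop :=
  ∀ A B γ δ K e k1 k2 K' e' : ℤ, 0 < A → 0 < B → A < δ → B < γ → B * δ - A * γ = 2 →
    0 < K → 0 ≤ e → 0 < k1 → 0 < k2 → k1 * γ = 2 * K * A + e * δ →
    k2 * δ = 2 * K * B + e * γ → k1 ≤ (2 * K + e) ^ 2 → k2 ≤ (2 * K + e) ^ 2 →
    δ ≤ (2 * K + e) * γ → γ * δ ≤ 4 * ((γ - B) * (δ - A)) →
    (γ - B) * (δ - A) ∣ K' * (A * B * (A * (γ - B) + 1)) + e' →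
    0 < 2 * K' - e' → 2 * K' * A + e' * (δ - A) ≤ 0 →
    ∀ T : ℤ, 2 * K + e ≤ T → |2 * K'| + |e'| ≤ T → γ * δ ≤ 1000 * T ^ 8

/-- THE: Theorem E for Euler triples. -/
def TheStatement : Prop :=
  ∃ C0 : ℕ, ∀ a b c r : ℕ, Euler a b c r → C0 < c → UniqueExt a b c

/-- NPC: Diophantine triples ordered by the product. -/
def NpcStatement : Prop :=
  ∀ ε : ℝ, 0 < ε → ∃ C : ℝ, ∀ N : ℕ, 1 ≤ N →
    (({t : ℕ × ℕ × ℕ | DTriple t.1 t.2.1 t.2.2 ∧ t.1 * t.2.1 * t.2.2 ≤ N}.ncard : ℕ) : ℝ) ≤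
      C * (N : ℝ) ^ (1 / 3 + ε)

/-- NEU: there are few triples which are not Euler triples. -/
def NeuStatement : Prop :=
  ∀ ε : ℝ, 0 < ε → ∃ C : ℝ, ∀ N : ℕ, 1 ≤ N →
    (({t : ℕ × ℕ × ℕ | DTriple t.1 t.2.1 t.2.2 ∧ (¬ ∃ r, Euler t.1 t.2.1 t.2.2 r) ∧
      t.2.2 ≤ N}.ncard : ℕ) : ℝ) ≤ C * (N : ℝ) ^ (1 / 3 + ε)

/-- FIN: the final theorem. -/
def FinStatement : Prop :=
  (∃ C0 : ℕ, ∀ a b c : ℕ, DTriple a b c → a + b + c + 2 * a * b * c = 2 * rst a b c →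
    C0 < c → UniqueExt a b c) ∧
  (∀ ε : ℝ, 0 < ε → ∃ C : ℝ, ∀ N : ℕ, 1 ≤ N →
    (({t : ℕ × ℕ × ℕ | DTriple t.1 t.2.1 t.2.2 ∧ t.2.2 ≤ N ∧
      ¬ UniqueExt t.1 t.2.1 t.2.2}.ncard : ℕ) : ℝ) ≤ C * (N : ℝ) ^ (1 / 3 + ε)) ∧
  (∀ N : ℕ, (N : ℝ) / 4 - 2 ≤
    (({t : ℕ × ℕ × ℕ | DTriple t.1 t.2.1 t.2.2 ∧ t.2.2 ≤ N}.ncard : ℕ) : ℝ))

end Pool.Agent.DIO
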