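import Pool.Agent.Helper40_Dio.AStmt

set_option autoImplicit false

namespace Pool.Agent.DIO.H40

theorem ar2 : Ar2Statement := by
  intro A B γ δ K e k1 k2 K' e' hA hB hAδ hBγ hdet hK he hk1 hk2 hk1e hk2e hk1b hk2b hδγ hc4 hdvd
    hM hneg T hT1 hT2
  obtain ⟨S, hS⟩ : ∃ S, S = 2 * K + e := ⟨_, rfl⟩
  obtain ⟨M, hMdef⟩ : ∃ M, M = 2 * K' - e' := ⟨_, rfl⟩
  rw [← hS] at hk1b hk2b hδγ hT1
  rw [← hMdef] at hM
  have hS2 : 2 ≤ S := by omega
  have hT2' : 2 ≤ T := by omega
  have hSpos : 0 < S := by linarith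
  have hTpos : 0 < T := by linarith
  have hg' : 0 < γ - B := by linarith
  have hd' : 0 < δ - A := by linarith
  have hγ : 0 < γ := by linarith
  have hδ : 0 < δ := by linarith
  -- k1'
  obtain ⟨k1', hk1'⟩ : (γ - B) ∣ 2 * K' * A + e' * (δ - A) := by
    obtain ⟨q, hq⟩ := hdvd
    have hBd : B * (δ - A) = A * (γ - B) + 2 := by linarith
    refine ⟨(δ - A) * q * (δ - A) - K' * A * (A ^ 2 * (γ - B) + 3 * A), ?_⟩
    have h1 : (K' * (A * B * (A * (γ - B) + 1)) + e') * (δ - A) =
        (γ - B) * (δ - A) * q * (δ - A) := by rw [hq]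
    have h2 : (K' * (A * B * (A * (γ - B) + 1)) + e') * (δ - A) =
        K' * A * (B * (δ - A)) * (A * (γ - B) + 1) + e' * (δ - A) := by ring
    rw [h2, hBd] at h1
    linear_combination h1
  have hk1'le : k1' ≤ 0 := by
    by_contra h
    push Not at h
    have : 0 < (γ - B) * k1' := mul_pos hg' h
    linarith
  -- the linear relation
  obtain ⟨G, hG⟩ : ∃ G, G = M * k1 - k1' * S := ⟨_, rfl⟩
  obtain ⟨H, hH⟩ : ∃ H, H = -(M * e) + 2 * K * e' + k1' * k2 := ⟨_, rfl⟩
  have hrel : G * γ + H * δ = 0 := by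
    have e1 : 2 * K * A = k1 * γ - e * δ := by linarith
    have e2 : 2 * K * B = k2 * δ - e * γ := by linarith
    have e3 : 2 * K * (2 * K' * A + e' * (δ - A)) = 2 * K * ((γ - B) * k1') := by rw [hk1']
    have e4 : 2 * K * (2 * K' * A + e' * (δ - A)) =
      2 * K' * (2 * K * A) + e' * (2 * K * δ - 2 * K * A) := by ring
    have e5 : 2 * K * ((γ - B) * k1') = k1' * (2 * K * γ - 2 * K * B) := by ring
    rw [e4, e5, e1, e2] at e3
    rw [hG, hH, hMdef, hS]
    linear_combination e3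
  have hGpos : 0 < G := by
    have h1 : 0 < M * k1 := mul_pos hM hk1
    have h2 : 0 ≤ -(k1' * S) := by
      have := mul_nonneg (neg_nonneg.mpr hk1'le) hSpos.le
      linarith
    rw [hG]; linarith
  have hHne : H ≠ 0 := by
    intro h
    rw [h] at hrel
    have : 0 < G * γ := mul_pos hGpos hγ
    linarith
  -- sizes
  have hγ4 : γ ≤ 4 * (γ - B) := by
    have h1 : γ * δ ≤ 4 * (γ - B) * δ := by
      have := mul_nonneg hg'.le hA.le
      linarith
    exact le_of_mul_le_mul_right h1 hδ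
  have hδ4 : δ ≤ 4 * (δ - A) := by
    have h1 : δ * γ ≤ 4 * (δ - A) * γ := by
      have := mul_nonneg hd'.le hB.le
      linarith
    exact le_of_mul_le_mul_right h1 hγ
  have hk1'abs : |k1'| ≤ 16 * T ^ 2 := by
    have h1 : (γ - B) * |k1'| = |2 * K' * A + e' * (δ - A)| := by
      rw [hk1', abs_mul, abs_of_pos hg']
    have h2 : |2 * K' * A + e' * (δ - A)| ≤ |2 * K'| * A + |e'| * (δ - A) := by
      refine (abs_add_le _ _).trans ?_
      rw [abs_mul (2 * K') A, abs_mul e' (δ - A), abs_of_pos hA, abs_of_pos hd']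
    have h3 : |2 * K'| * A + |e'| * (δ - A) ≤ (|2 * K'| + |e'|) * (4 * (δ - A)) := by
      have a1 : |2 * K'| * A ≤ |2 * K'| * (4 * (δ - A)) :=
        mul_le_mul_of_nonneg_left (by linarith) (abs_nonneg _)
      have a2 : |e'| * (δ - A) ≤ |e'| * (4 * (δ - A)) :=
        mul_le_mul_of_nonneg_left (by linarith) (abs_nonneg _)
      linarith
    have h4 : (|2 * K'| + |e'|) * (4 * (δ - A)) ≤ T * (4 * δ) := by
      apply mul_le_mul hT2 (by linarith) (by linarith) hTpos.le
    have h5 : T * (4 * δ) ≤ T * (4 * (S * (4 * (γ - B)))) := by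
      apply mul_le_mul_of_nonneg_left _ hTpos.le
      have : δ ≤ S * (4 * (γ - B)) := hδγ.trans (mul_le_mul_of_nonneg_left hγ4 hSpos.le)
      linarith
    have h6 : T * (4 * (S * (4 * (γ - B)))) ≤ (γ - B) * (16 * T ^ 2) := by
      have h61 : T * S ≤ T * T := mul_le_mul_of_nonneg_left hT1 hTpos.le
      have h62 := mul_le_mul_of_nonneg_left h61 hg'.le
      linarith
    have h7 : (γ - B) * |k1'| ≤ (γ - B) * (16 * T ^ 2) := by linarith
    exact le_of_mul_le_mul_left h7 hg'
  have hMT : M ≤ T := by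
    have a1 := le_abs_self (2 * K')
    have a2 := neg_abs_le e'
    rw [hMdef]; linarith
  have hS2T : S ^ 2 ≤ T ^ 2 := by
    apply pow_le_pow_left₀ hSpos.le hT1
  have hk1T : k1 ≤ T ^ 2 := hk1b.trans hS2T
  have hk2T : k2 ≤ T ^ 2 := hk2b.trans hS2T
  have hGle : G ≤ 17 * T ^ 3 := by
    have a1 : M * k1 ≤ T * T ^ 2 := mul_le_mul hMT hk1T hk1.le hTpos.le
    have a2 : -(k1' * S) ≤ 16 * T ^ 2 * T := by
      have : -(k1' * S) = |k1'| * S := by rw [abs_of_nonpos hk1'le]; ring
      rw [this]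
      exact mul_le_mul hk1'abs hT1 hSpos.le (by positivity)
    rw [hG]; linarith
  have hHle : |H| ≤ 17 * T ^ 4 := by
    have a1 : |H| ≤ M * e + 2 * K * |e'| + |k1'| * k2 := by
      rw [hH]
      refine (abs_add_le _ _).trans ?_
      rw [abs_mul k1' k2, abs_of_pos hk2]
      have : |-(M * e) + 2 * K * e'| ≤ M * e + 2 * K * |e'| := by
        refine (abs_add_le _ _).trans ?_
        rw [abs_neg, abs_mul M e, abs_of_pos hM, abs_of_nonneg he, abs_mul (2 * K) e',
          abs_of_pos (by linarith : (0 : ℤ) < 2 * K)]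
      linarith
    have he'T : |e'| ≤ T := by
      have := abs_nonneg (2 * K')
      linarith
    have a2 : M * e + 2 * K * |e'| ≤ T * e + 2 * K * T := by
      have b1 : M * e ≤ T * e := mul_le_mul_of_nonneg_right hMT he
      have b2 : 2 * K * |e'| ≤ 2 * K * T := mul_le_mul_of_nonneg_left he'T (by linarith)
      linarith
    have a3 : T * e + 2 * K * T ≤ T * T := by
      have : T * e + 2 * K * T = T * S := by rw [hS]; ring
      rw [this]; exact mul_le_mul_of_nonneg_left hT1 hTpos.le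
    have a4 : |k1'| * k2 ≤ 16 * T ^ 2 * T ^ 2 :=
      mul_le_mul hk1'abs hk2T hk2.le (by positivity)
    have a5 : T * T ≤ T ^ 4 := by
      have : T ^ 2 ≤ T ^ 4 := pow_le_pow_right₀ (by linarith) (by norm_num)
      linarith
    linarith
  -- gcd
  have hδle : δ ≤ 2 * G := by
    have h1 : δ * (B * G + A * H) = 2 * G := by
      have : B * δ * G - A * γ * G = 2 * G := by rw [← sub_mul, hdet]
      linear_combination this + A * hrel
    exact Int.le_of_dvd (by linarith) ⟨_, h1.symm⟩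
  have hγle : γ ≤ 2 * |H| := by
    have h1 : γ * (-(B * G) - A * H) = 2 * H := by
      have : B * δ * H - A * γ * H = 2 * H := by rw [← sub_mul, hdet]
      linear_combination this - B * hrel
    have h2 : γ ∣ 2 * |H| := by
      rcases abs_choice H with h | h
      · rw [h]; exact ⟨_, h1.symm⟩
      · rw [h]; exact ⟨-(-(B * G) - A * H), by linear_combination h1⟩
    exact Int.le_of_dvd (by have := abs_pos.mpr hHne; linarith) h2
  calc γ * δ ≤ (2 * |H|) * (2 * G) := mul_le_mul hγle hδle hδ.le (by positivity)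
    _ ≤ (2 * (17 * T ^ 4)) * (2 * (17 * T ^ 3)) := by
        apply mul_le_mul (by linarith) (by linarith) (by linarith) (by positivity)
    _ = 1156 * T ^ 7 := by ring
    _ ≤ 1000 * T ^ 8 := by
        have h70 : 0 < T ^ 7 := by positivity
        have h71 := mul_le_mul_of_nonneg_right hT2' h70.le
        linarith

end Pool.Agent.DIO.H40
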