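import Mathlib

/-! # DIO (MP_9ca527_nt): definitions.  Architect: helper40. -/

set_option autoImplicit false

namespace Pool.Agent.DIO

open Real

/-! ## Part B (Baker's method, three logarithms, abstract order of rank 4) -/

/-- A commutative ring with four real embeddings and an integral basis (coordinates) which is
controlled by the embeddings; nonzero elements have norm at least one in absolute value. -/
structure Ord4 (S : Type) [CommRing S] where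
  σ : Fin 4 → S →+* ℝ
  crd : S →+ (Fin 4 → ℤ)
  crd_inj : ∀ x : S, crd x = 0 → x = 0
  crd_le : ∀ (x : S) (H : ℝ), (∀ j, |σ j x| ≤ H) → ∀ i, |((crd x i : ℤ) : ℝ)| ≤ H
  norm_ge : ∀ x : S, x ≠ 0 → 1 ≤ ∏ j, |σ j x|

/-- Data for the linear form `b1 log a1 + b2 log a2 + log a3`, which is supposed to be tiny. -/
structure BData {S : Type} [CommRing S] (O : Ord4 S) where
  α1 : S
  α2 : S
  η : S
  D : ℕ
  a1 : ℝ
  a2 : ℝ
  a3 : ℝ
  b1 : ℤ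
  b2 : ℤ
  Q : ℝ
  B : ℝ
  hD : 1 ≤ D
  hQ : 1 ≤ Q
  hB : 1 ≤ B
  p1 : 0 < a1
  p2 : 0 < a2
  p3 : 0 < a3
  s1 : O.σ 0 α1 = a1
  s2 : O.σ 0 α2 = a2
  s3 : O.σ 0 η = D * a3
  c1 : ∀ j, |O.σ j α1| ≤ exp Q
  c2 : ∀ j, |O.σ j α2| ≤ exp Q
  c3 : ∀ j, |O.σ j η| ≤ exp Q
  cD : (D : ℝ) ≤ exp Q
  l1 : |log a1| ≤ Q
  l2 : |log a2| ≤ Q
  l3 : |log a3| ≤ Q
  hb1 : |(b1 : ℝ)| ≤ B
  hb2 : |(b2 : ℝ)| ≤ B
  hΛ : |(b1 : ℝ) * log a1 + (b2 : ℝ) * log a2 + log a3| ≤ exp (-B)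

/-- index set of the auxiliary function -/
abbrev Idx (L : ℕ) : Type := Fin (L + 1) × Fin (L + 1) × Fin (L + 1)

/-- The algebraic number `α1^(x1 l) α2^(x2 l) η^(x3 l) D^((L-x3) l)` of `S`. -/
def term {S : Type} [CommRing S] {O : Ord4 S} (d : BData O) (L : ℕ) (x : Idx L) (l : ℕ) : S :=
  d.α1 ^ ((x.1 : ℕ) * l) * d.α2 ^ ((x.2.1 : ℕ) * l) * d.η ^ ((x.2.2 : ℕ) * l) *
    (d.D : S) ^ ((L - (x.2.2 : ℕ)) * l)

/-- `γ1 = x1 - b1 x3` -/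
def gam1 {S : Type} [CommRing S] {O : Ord4 S} (d : BData O) {L : ℕ} (x : Idx L) : ℤ :=
  ((x.1 : ℕ) : ℤ) - d.b1 * ((x.2.2 : ℕ) : ℤ)

/-- `γ2 = x2 - b2 x3` -/
def gam2 {S : Type} [CommRing S] {O : Ord4 S} (d : BData O) {L : ℕ} (x : Idx L) : ℤ :=
  ((x.2.1 : ℕ) : ℤ) - d.b2 * ((x.2.2 : ℕ) : ℤ)

/-- All derivatives of order `≤ k` in both variables vanish at `1, …, h`. -/
def Zero {S : Type} [CommRing S] {O : Ord4 S} (d : BData O) (L : ℕ) (p : Idx L → ℤ)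
    (k h : ℕ) : Prop :=
  ∀ m1 m2 l : ℕ, m1 ≤ k → m2 ≤ k → 1 ≤ l → l ≤ h →
    ∑ x : Idx L, ((p x * gam1 d x ^ m1 * gam2 d x ^ m2 : ℤ) : S) * term d L x l = 0

/-- The constant `C0` of the extrapolation step. -/
noncomputable def cst0 (L k : ℕ) (B H0 : ℝ) : ℝ :=
  ((L : ℝ) + 1) ^ 3 * exp H0 * (2 * L * B) ^ (2 * k)

/-- The numerical inequality of the extrapolation step. -/
def ExtIneq (L k h h' : ℕ) (Q B H0 : ℝ) : Prop :=
  exp (Q * L * h') *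
    (cst0 L k B H0 * (3 * L * Q * h') ^ (h * k) * exp (3 * L * Q * h') / ((h * k).factorial : ℝ) +
      cst0 L k B H0 * (k * L * (4 * L * Q) ^ k * exp (3 * L * Q * h - B)) *
        (2 * ((h * k : ℕ) : ℝ) * h') ^ ((h * k) ^ 2 + 2 * (h * k))) <
    exp (-(3 * (log (cst0 L k B H0) + 3 * Q * L * h')))

/-- size of the coefficients of the auxiliary function -/
noncomputable def siz0 (L k h : ℕ) (Q B : ℝ) : ℝ :=
  log (((L : ℝ) + 1) ^ 3) + 2 * k * log (2 * L * B) + 3 * Q * L * h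

end Pool.Agent.DIO
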