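import Pool.Agent.Helper40_Dio.ADefs

/-! # DIO (MP_9ca527_nt), Part F (only finitely many irregular quadruples): definitions.
Architect: helper40. -/

set_option autoImplicit false

namespace Pool.Agent.DIO

/-- The quadruple `{a, b, c, d}` is regular (a symmetric condition, equivalent to
`d = d₊` or `d = d₋`). -/
def RegQ (a b c d : ℤ) : Prop := (a + b - c - d) ^ 2 = 4 * (a * b + 1) * (c * d + 1)

/-- An irregular Diophantine quadruple `a < b < c < d`. -/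
structure Irr (a b c d : ℕ) : Prop where
  ha : 0 < a
  hab : a < b
  hbc : b < c
  hcd : c < d
  sab : IsSquare (a * b + 1)
  sac : IsSquare (a * c + 1)
  sad : IsSquare (a * d + 1)
  sbc : IsSquare (b * c + 1)
  sbd : IsSquare (b * d + 1)
  scd : IsSquare (c * d + 1)
  irr : ¬ RegQ a b c d

/-- A Diophantine quadruple `a < b < c < d` with all its roots. -/
structure Ctx (a b c d r s t : ℕ) (x y z : ℤ) : Prop where
  ha : 0 < a
  hab : a < b
  hbc : b < c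
  hcd : c < d
  hr : r * r = a * b + 1
  hs : s * s = a * c + 1
  ht : t * t = b * c + 1
  hx : 0 < x
  hy : 0 < y
  hz : 0 < z
  x2 : x * x = a * d + 1
  y2 : y * y = b * d + 1
  z2 : z * z = c * d + 1

/-- The triple `{a, b, c}` with `c = d₊(a, b, g)`, `g > 0` (a triple which is not an Euler
triple); `u² = a g + 1`, `v² = b g + 1`, `w² = c g + 1`. The triple `{a, b, g}` is not sorted. -/
structure NEd (a b c r s t g u v w : ℕ) : Prop where
  ha : 0 < a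
  hab : a ≠ b
  hb : 0 < b
  hr : r * r = a * b + 1
  hs : s * s = a * c + 1
  ht : t * t = b * c + 1
  hg : 0 < g
  hga : g ≠ a
  hgb : g ≠ b
  hu : u * u = a * g + 1
  hv : v * v = b * g + 1
  hw : w * w = c * g + 1
  hc : c = a + b + g + 2 * a * b * g + 2 * (r * (u * v))
  s_eq : s = a * v + r * u
  t_eq : t = b * u + r * v
  w_eq : w = g * r + u * v
  w_eq' : w + s * t = c * r
  u_eq' : u + a * t = r * s
  v_eq' : v + b * s = r * t
  c_gt : 4 * (a * b * g) < c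
  c_le : c ≤ 16 * (a * b * g)

/-- Even type with the lower extension `f` (or `f = 0`). -/
def TypE (a b c s t : ℕ) (x y z : ℤ) (f W F1 F2 : ℕ) (ε : ℤ) (μ ν : ℕ) : Prop :=
  (ε = 1 ∨ ε = -1) ∧ W * W = c * f + 1 ∧ F1 * F1 = a * f + 1 ∧ F2 * F2 = b * f + 1 ∧
    4 * f < c ∧ 1 ≤ μ ∧ 1 ≤ ν ∧
    sqg a c s (ε * W) F1 (2 * μ) = (z, x) ∧ sqg b c t (ε * W) F2 (2 * ν) = (z, y)

/-- Type `s`. -/
def TypS (a b c r s t : ℕ) (x y z : ℤ) (ε : ℤ) (μ ν : ℕ) : Prop :=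
  (ε = 1 ∨ ε = -1) ∧ 1 ≤ ν ∧
    sqg a c s ε 1 (2 * μ + 1) = (z, x) ∧ sqg b c t (ε * s) r (2 * ν) = (z, y)

/-- Type `t`. -/
def TypT (a b c r s t : ℕ) (x y z : ℤ) (ε : ℤ) (μ ν : ℕ) : Prop :=
  (ε = 1 ∨ ε = -1) ∧ 1 ≤ μ ∧
    sqg a c s (ε * t) r (2 * μ) = (z, x) ∧ sqg b c t ε 1 (2 * ν + 1) = (z, y)

/-- The relation modulo `c` for the even type with `f = g` (with `k = 0` it is exact). -/
def relG (a b g : ℕ) (ε : ℤ) (μ ν : ℕ) : ℤ :=
  2 * ε * (b * (ν : ℤ) ^ 2 - a * (μ : ℤ) ^ 2) + (b - a) * (μ + ν) - g * (μ - ν)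

/-- The relation modulo `c` for the type `s`. -/
def relS (a b g s : ℕ) (ε : ℤ) (μ ν : ℕ) : ℤ :=
  2 * ε * a * μ * (μ + 1) + s * (2 * μ + 1) - 2 * ε * b * (ν : ℤ) ^ 2 - (a + b - g) * ν

/-- The relation modulo `c` for the type `t`. -/
def relT (a b g t : ℕ) (ε : ℤ) (μ ν : ℕ) : ℤ :=
  2 * ε * b * ν * (ν + 1) + t * (2 * ν + 1) - 2 * ε * a * (μ : ℤ) ^ 2 - (a + b - g) * μ

end Pool.Agent.DIO
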