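import Pool.Agent.Helper40_Dio.FDefs
import Pool.Agent.Helper40_Dio.AStmt

/-! # DIO (MP_9ca527_nt), Part F: statements of the modules.  Architect: helper40.
Plan and proofs: /team-store/PLAN_DIO_F.md -/

set_option autoImplicit false

namespace Pool.Agent.DIO

open Real

/-! ### Structure -/

/-- NET: an Euler triple or the data `g, u, v, w`. -/
def NetStatement : Prop :=
  ∀ a b c r s t : ℕ, 0 < a → a < b → b < c → r * r = a * b + 1 → s * s = a * c + 1 →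
    t * t = b * c + 1 → c = a + b + 2 * r ∨ ∃ g u v w, NEd a b c r s t g u v w

/-- CLG: classification of `z`. -/
def ClgStatement : Prop :=
  ∀ (a b c d r s t g u v w : ℕ) (x y z : ℤ), Ctx a b c d r s t x y z →
    NEd a b c r s t g u v w →
    (∃ (f W F1 F2 : ℕ) (ε : ℤ) (μ ν : ℕ), TypE a b c s t x y z f W F1 F2 ε μ ν) ∨
    (∃ (ε : ℤ) (μ ν : ℕ), TypS a b c r s t x y z ε μ ν) ∨
    (∃ (ε : ℤ) (μ ν : ℕ), TypT a b c r s t x y z ε μ ν)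

/-- CLL: classification of `(y, x)` for the type `s`. -/
def CllStatement : Prop :=
  ∀ (a b c d r s t g u v w : ℕ) (x y z ε : ℤ) (μ ν : ℕ), Ctx a b c d r s t x y z →
    NEd a b c r s t g u v w → TypS a b c r s t x y z ε μ ν →
    ∃ lam : ℕ, sqg a b r 1 1 (2 * lam + 1) = (y, x)

/-- FDB: every extension is bounded in terms of the triple. -/
def FdbStatement : Prop :=
  ∃ C : ℝ, 1 ≤ C ∧ ∀ (a b c d r s t : ℕ) (x y z : ℤ), Ctx a b c d r s t x y z →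
    log d ≤ C * (log c) ^ 61

/-- APX: the indices are polylogarithmic. -/
def ApxStatement : Prop :=
  ∃ C : ℝ, 1 ≤ C ∧ ∀ (a b c d r s t g u v w : ℕ) (x y z : ℤ), Ctx a b c d r s t x y z →
    NEd a b c r s t g u v w →
    (∀ (f W F1 F2 : ℕ) (ε : ℤ) (μ ν : ℕ), TypE a b c s t x y z f W F1 F2 ε μ ν →
      (μ : ℝ) ≤ C * (log c) ^ 61 ∧ (ν : ℝ) ≤ C * (log c) ^ 61) ∧
    (∀ (ε : ℤ) (μ ν : ℕ), TypS a b c r s t x y z ε μ ν →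
      (μ : ℝ) ≤ C * (log c) ^ 61 ∧ (ν : ℝ) ≤ C * (log c) ^ 61 ∧
      ∀ lam : ℕ, sqg a b r 1 1 (2 * lam + 1) = (y, x) → (lam : ℝ) ≤ C * (log c) ^ 61) ∧
    (∀ (ε : ℤ) (μ ν : ℕ), TypT a b c r s t x y z ε μ ν →
      (μ : ℝ) ≤ C * (log c) ^ 61 ∧ (ν : ℝ) ≤ C * (log c) ^ 61)

/-! ### Congruences -/

/-- MCE: even type modulo `c`. -/
def MceStatement : Prop :=
  ∀ (a b c s t : ℕ) (x y z : ℤ) (f W F1 F2 : ℕ) (ε e1 e2 : ℤ) (μ ν : ℕ),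
    s * s = a * c + 1 → t * t = b * c + 1 → TypE a b c s t x y z f W F1 F2 ε μ ν →
    e1 = a + c + f + 2 * a * c * f - 2 * s * F1 * W →
    e2 = b + c + f + 2 * b * c * f - 2 * t * F2 * W →
    (c : ℤ) ∣ 2 * ε * (a * (μ : ℤ) ^ 2 - b * (ν : ℤ) ^ 2) + (a + f - e1) * μ - (b + f - e2) * ν

/-- MCS: type `s` modulo `c`. -/
def McsStatement : Prop :=
  ∀ (a b c r s t g u v w : ℕ) (x y z ε : ℤ) (μ ν : ℕ), NEd a b c r s t g u v w →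
    TypS a b c r s t x y z ε μ ν → (c : ℤ) ∣ relS a b g s ε μ ν

/-- MCT: type `t` modulo `c`. -/
def MctStatement : Prop :=
  ∀ (a b c r s t g u v w : ℕ) (x y z ε : ℤ) (μ ν : ℕ), NEd a b c r s t g u v w →
    TypT a b c r s t x y z ε μ ν → (c : ℤ) ∣ relT a b g t ε μ ν

/-- MBS: type `s` modulo `b`. -/
def MbsStatement : Prop :=
  ∀ (a b c r s t g u v w : ℕ) (x y z ε : ℤ) (μ ν lam : ℕ), NEd a b c r s t g u v w →
    TypS a b c r s t x y z ε μ ν → sqg a b r 1 1 (2 * lam + 1) = (y, x) →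
    (b : ℤ) ∣ 2 * a * lam * (lam + 1) + r * (2 * lam + 1) - 2 * c * (ν : ℤ) ^ 2 -
      ε * (a + c - g) * ν

/-! ### Sizes -/

/-- SGE: sizes, even type, `f > 0`. -/
def SgeStatement : Prop :=
  ∀ (a b c d r s t g u v w : ℕ) (x y z : ℤ) (f W F1 F2 : ℕ) (ε : ℤ) (μ ν : ℕ),
    Ctx a b c d r s t x y z → NEd a b c r s t g u v w →
    TypE a b c s t x y z f W F1 F2 ε μ ν → 0 < f →
    ν ≤ μ ∧ μ < 2 * ν ∧ (μ = ν → ε = -1 ∧ ν = 1) ∧ (4 * a * c) ^ (μ - ν) * a ^ ν ≤ b ^ ν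

/-- SGS: sizes, type `s`. -/
def SgsStatement : Prop :=
  ∀ (a b c d r s t g u v w : ℕ) (x y z ε : ℤ) (μ ν : ℕ),
    Ctx a b c d r s t x y z → NEd a b c r s t g u v w → TypS a b c r s t x y z ε μ ν →
    10 ^ 9 ≤ c →
    (ε = 1 → μ < 2 * ν ∧ a * μ ^ 2 ≤ b * ν ^ 2) ∧
    (ε = -1 → a * (2 * μ + 1) ^ 2 ≤ 4 * (b * ν ^ 2) ∧
      (4 * a ≤ b → 2 * (a * (2 * μ + 1) ^ 2) ≤ 3 * (b * ν ^ 2)))

/-! ### Arithmetic.  `Y ≥ 100` bounds the indices, `T = Y ^ 420` is the threshold. -/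

/-- IRR: a linear form in `B` and `N = √((A B + 1)(G B + 1))` is not small. -/
def IrrStatement : Prop :=
  ∀ (A G B N u : ℕ) (U V Y : ℤ), 0 < A → 0 < G → 0 < B → u * u = A * G + 1 →
    N * N = (A * B + 1) * (G * B + 1) → 1 ≤ Y → (A : ℤ) ≤ Y → (G : ℤ) ≤ Y → |U| ≤ Y → |V| ≤ Y →
    (U = 0 ∧ V = 0) ∨ (B : ℤ) ≤ 10 * Y ^ 3 * (|U * B + V * N| + 1)

/-- PR1: even type with `f = 0`. -/
def Pr1Statement : Prop :=
  ∀ (a b c r s t g u v w : ℕ) (ε : ℤ) (μ ν Y : ℕ), a < b → NEd a b c r s t g u v w →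
    (ε = 1 ∨ ε = -1) → 1 ≤ ν → 100 ≤ Y → μ ≤ Y → ν ≤ Y →
    (c : ℤ) ∣ 2 * ε * (a * (μ : ℤ) ^ 2 - b * (ν : ℤ) ^ 2) + 2 * s * μ - 2 * t * ν →
    c ≤ Y ^ 5000

/-- PT1: type `t`, small cases. -/
def Pt1Statement : Prop :=
  ∀ (a b c r s t g u v w : ℕ) (ε : ℤ) (μ ν Y : ℕ), a < b → NEd a b c r s t g u v w →
    (ε = 1 ∨ ε = -1) → 1 ≤ μ → 100 ≤ Y → μ ≤ Y → ν ≤ Y →
    (c : ℤ) ∣ relT a b g t ε μ ν → (a * g ≤ Y ^ 420 ∨ a * b ≤ Y ^ 420) → c ≤ Y ^ 5000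

/-- PT3: type `t`, main case. -/
def Pt3Statement : Prop :=
  ∀ (a b c r s t g u v w : ℕ) (ε : ℤ) (μ ν Y : ℕ), a < b → NEd a b c r s t g u v w →
    (ε = 1 ∨ ε = -1) → 100 ≤ Y → μ ≤ Y → ν ≤ Y →
    (c : ℤ) ∣ relT a b g t ε μ ν → Y ^ 420 < a * g → Y ^ 420 < a * b → False

/-- PG1: even type with `f = g`, small cases. -/
def Pg1Statement : Prop :=
  ∀ (a b c r s t g u v w : ℕ) (ε : ℤ) (μ ν Y : ℕ), a < b → NEd a b c r s t g u v w →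
    (ε = 1 ∨ ε = -1) → 1 ≤ ν → ν < μ → 100 ≤ Y → μ ≤ Y →
    (c : ℤ) ∣ relG a b g ε μ ν → (a * g ≤ Y ^ 420 ∨ a * b ≤ Y ^ 420) → c ≤ Y ^ 5000

/-- PG3: even type with `f = g`, main case. -/
def Pg3Statement : Prop :=
  ∀ (a b c r s t g u v w : ℕ) (ε : ℤ) (μ ν Y : ℕ), a < b → NEd a b c r s t g u v w →
    (ε = 1 ∨ ε = -1) → 1 ≤ ν → ν < μ → μ < 2 * ν → 100 ≤ Y → μ ≤ Y → 10 ^ 9 ≤ c →
    (4 * a * c) ^ (μ - ν) * a ^ ν ≤ b ^ ν →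
    (c : ℤ) ∣ relG a b g ε μ ν → Y ^ 420 < a * g → Y ^ 420 < a * b → False

/-- PS1: type `s`, small cases. -/
def Ps1Statement : Prop :=
  ∀ (a b c r s t g u v w : ℕ) (ε : ℤ) (μ ν Y : ℕ), a < b → NEd a b c r s t g u v w →
    (ε = 1 ∨ ε = -1) → 1 ≤ ν → 100 ≤ Y → μ ≤ Y → ν ≤ Y →
    (c : ℤ) ∣ relS a b g s ε μ ν → (a * g ≤ Y ^ 420 ∨ a * b ≤ Y ^ 420) → c ≤ Y ^ 5000

/-- PS2: type `s`, main case: the relation is exact and `ε = 1`. -/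
def Ps2Statement : Prop :=
  ∀ (a b c r s t g u v w : ℕ) (ε : ℤ) (μ ν Y : ℕ), a < b → NEd a b c r s t g u v w →
    (ε = 1 ∨ ε = -1) → 1 ≤ ν → 100 ≤ Y → μ ≤ Y → ν ≤ Y →
    (ε = -1 → a * (2 * μ + 1) ^ 2 ≤ 4 * (b * ν ^ 2) ∧
      (4 * a ≤ b → 2 * (a * (2 * μ + 1) ^ 2) ≤ 3 * (b * ν ^ 2))) →
    (c : ℤ) ∣ relS a b g s ε μ ν → Y ^ 420 < a * g → Y ^ 420 < a * b →
    ε = 1 ∧ relS a b g s ε μ ν = 0

/-- PS3: type `s`: bounds for `g`. -/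
def Ps3Statement : Prop :=
  ∀ (a b c r s t g u v w μ ν Y : ℕ), a < b → NEd a b c r s t g u v w →
    1 ≤ ν → 100 ≤ Y → ν ≤ Y → μ < 2 * ν → a * μ ^ 2 ≤ b * ν ^ 2 →
    relS a b g s 1 μ ν = 0 → Y ^ 420 < a * b →
    g ≤ 4 * b * Y ∧ a ^ 2 * g ≤ 4 * b * Y ^ 4 ∧ b ≤ Y ^ 4 * (a ^ 2 * g)

/-- PS4: type `s`: the triple `{a, b, g}` is not an Euler triple. -/
def Ps4Statement : Prop :=
  ∀ (a b c r s t g u v w μ ν Y : ℕ), a < b → NEd a b c r s t g u v w →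
    1 ≤ ν → 100 ≤ Y → ν ≤ Y → μ < 2 * ν → relS a b g s 1 μ ν = 0 → Y ^ 420 < a * b →
    a ^ 2 * g ≤ 4 * b * Y ^ 4 → (g = a + b + 2 * r ∨ b = a + g + 2 * u) → False

/-- PS5: type `s`: the case `g = d₊(a, b, h)`. -/
def Ps5Statement : Prop :=
  ∀ (a b c r s t g u v w h p q k0 μ ν Y : ℕ), a < b → NEd a b c r s t g u v w →
    NEd a b g r u v h p q k0 →
    1 ≤ ν → 100 ≤ Y → ν ≤ Y → μ < 2 * ν → relS a b g s 1 μ ν = 0 → Y ^ 420 < a * b →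
    g ≤ 4 * b * Y → False

/-- PS6: type `s`: the case `b = d₊(a, g, h)` with `a h` small. -/
def Ps6Statement : Prop :=
  ∀ (a b c r s t g u v w h p q k0 μ ν Y : ℕ), a < b → NEd a b c r s t g u v w →
    NEd a g b u r v h p q k0 →
    1 ≤ ν → 100 ≤ Y → ν ≤ Y → μ < 2 * ν → relS a b g s 1 μ ν = 0 → Y ^ 420 < a * b →
    a * h ≤ Y ^ 40 → False

/-- PS7: type `s`: the case `b = d₊(a, g, h)` with `a h` large: the relation modulo `b` is exact,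
and `g` is about `a² h`. -/
def Ps7Statement : Prop :=
  ∀ (a b c r s t g u v w h p q k0 μ ν lam Y : ℕ), a < b → g < b → NEd a b c r s t g u v w →
    NEd a g b u r v h p q k0 →
    1 ≤ ν → 100 ≤ Y → ν ≤ Y → lam ≤ Y → Y ^ 420 < a * b → Y ^ 40 < a * h →
    a ^ 2 * g ≤ 4 * b * Y ^ 4 → b ≤ Y ^ 4 * (a ^ 2 * g) →
    (b : ℤ) ∣ 2 * a * lam * (lam + 1) + r * (2 * lam + 1) - 2 * c * (ν : ℤ) ^ 2 -
      (a + c - g) * ν →
    (r : ℤ) * (2 * lam + 1) = a * (4 * (ν : ℤ) ^ 2 + 3 * ν - 2 * lam * (lam + 1)) +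
      g * (4 * (ν : ℤ) ^ 2 + ν) - h * (2 * (ν : ℤ) ^ 2 + ν) ∧
    a ^ 2 * h ≤ Y ^ 5 * g ∧ g ≤ Y ^ 5 * (a ^ 2 * h) ∧ h ≤ Y ^ 5 * a ∧ a ≤ Y ^ 6 * h

/-- PS8: type `s`: the end. -/
def Ps8Statement : Prop :=
  ∀ (a b c r s t g u v w h p q k0 ν lam Y : ℕ), a < b → NEd a b c r s t g u v w →
    NEd a g b u r v h p q k0 →
    1 ≤ ν → 100 ≤ Y → ν ≤ Y → lam ≤ Y → Y ^ 40 < a * h →
    (r : ℤ) * (2 * lam + 1) = a * (4 * (ν : ℤ) ^ 2 + 3 * ν - 2 * lam * (lam + 1)) +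
      g * (4 * (ν : ℤ) ^ 2 + ν) - h * (2 * (ν : ℤ) ^ 2 + ν) →
    a ^ 2 * h ≤ Y ^ 5 * g → g ≤ Y ^ 5 * (a ^ 2 * h) → h ≤ Y ^ 5 * a → a ≤ Y ^ 6 * h → False

/-! ### Assembly -/

/-- The remaining type: `f` is an irregular lower extension. -/
def TypB (a b c d : ℕ) (f : ℕ) : Prop :=
  ∃ (r s t g u v w : ℕ) (x y z : ℤ) (W F1 F2 : ℕ) (ε : ℤ) (μ ν : ℕ),
    Ctx a b c d r s t x y z ∧ NEd a b c r s t g u v w ∧
    TypE a b c s t x y z f W F1 F2 ε μ ν ∧ 0 < f ∧ f ≠ g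

/-- QTE: the even type. -/
def QteStatement : Prop :=
  ∃ C1 : ℕ, ∀ (a b c d r s t g u v w : ℕ) (x y z : ℤ) (f W F1 F2 : ℕ) (ε : ℤ) (μ ν : ℕ),
    C1 < c → Ctx a b c d r s t x y z → NEd a b c r s t g u v w → ¬ RegQ a b c d →
    TypE a b c s t x y z f W F1 F2 ε μ ν → 0 < f ∧ f ≠ g

/-- QTT: the type `t`. -/
def QttStatement : Prop :=
  ∃ C1 : ℕ, ∀ (a b c d r s t g u v w : ℕ) (x y z ε : ℤ) (μ ν : ℕ),
    C1 < c → Ctx a b c d r s t x y z → NEd a b c r s t g u v w → ¬ TypT a b c r s t x y z ε μ ν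

/-- QTS: the type `s`. -/
def QtsStatement : Prop :=
  ∃ C1 : ℕ, ∀ (a b c d r s t g u v w : ℕ) (x y z ε : ℤ) (μ ν : ℕ),
    C1 < c → Ctx a b c d r s t x y z → NEd a b c r s t g u v w → ¬ TypS a b c r s t x y z ε μ ν

/-- PRM: an irregular quadruple with large third element is of the remaining type. -/
def PrmStatement : Prop :=
  ∃ C1 : ℕ, ∀ a b c d : ℕ, Irr a b c d → C1 < c → ∃ f, TypB a b c d f

/-- BR1: for `μ = ν = 1`, `ε = -1` the lower extension is `g`. -/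
def Br1Statement : Prop :=
  ∀ (a b c r s t g u v w : ℕ) (x y z : ℤ) (f W F1 F2 : ℕ),
    a < b → b < c → NEd a b c r s t g u v w → TypE a b c s t x y z f W F1 F2 (-1) 1 1 → 0 < f →
    f = g

/-- BLO: lower bound for `d` when `ν ≥ 2`. -/
def BloStatement : Prop :=
  ∀ (a b c d r s t g u v w : ℕ) (x y z : ℤ) (f W F1 F2 : ℕ) (ε : ℤ) (μ ν : ℕ),
    Ctx a b c d r s t x y z → NEd a b c r s t g u v w →
    TypE a b c s t x y z f W F1 F2 ε μ ν → 2 ≤ ν → 15 * b ^ 2 * c ^ 3 ≤ d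

/-- BEX: in the remaining type `c` is not much larger than `{a, b, f}`. Here `b1` and `c1` are the
middle and the largest of `a, b, f`. -/
def BexStatement : Prop :=
  ∀ (a b c d r s t g u v w : ℕ) (x y z : ℤ) (f W F1 F2 : ℕ) (ε : ℤ) (μ ν Y b1 c1 : ℕ),
    Ctx a b c d r s t x y z → NEd a b c r s t g u v w →
    TypE a b c s t x y z f W F1 F2 ε μ ν → 0 < f → ν < μ → μ ≤ Y → 100 ≤ Y →
    ((b < f ∧ b1 = b ∧ c1 = f) ∨ (a < f ∧ f < b ∧ b1 = f ∧ c1 = b) ∨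
      (f < a ∧ b1 = a ∧ c1 = b)) →
    Y ^ 100 ≤ c1 → c ≤ Y ^ 80 * b1 * c1 ^ 2

/-- THB: the remaining type does not occur either. -/
def ThbStatement : Prop :=
  ∃ C1 : ℕ, ∀ a b c d f : ℕ, Irr a b c d → C1 < c → ¬ TypB a b c d f

/-- THF: there are only finitely many irregular Diophantine quadruples. -/
def ThfStatement : Prop :=
  ∃ C0 : ℕ, ∀ a b c d : ℕ, Irr a b c d → d ≤ C0

/-- FIF: the final theorem. -/
def FifStatement : Prop :=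
  ∃ C0 : ℕ, ∀ a b c d : ℕ, DTriple a b c → Extends a b c d →
    ¬ ((d : ℤ) = a + b + c + 2 * a * b * c + 2 * rst a b c ∨
      (d : ℤ) = a + b + c + 2 * a * b * c - 2 * rst a b c) → c ≤ C0 ∧ d ≤ C0

end Pool.Agent.DIO
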