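import Pool.Agent.Helper40_Dio.AStmt

set_option autoImplicit false

namespace Pool.Agent.DIO.H40

theorem fct : FctStatement := by
  intro a b c r ⟨ha, hab, hr, hc⟩
  -- basic facts
  have hr2 : 2 ≤ r := by
    by_contra h
    have : r = 0 ∨ r = 1 := by omega
    rcases this with rfl | rfl
    · simp at hr
    · have : 1 * 2 ≤ a * b := Nat.mul_le_mul ha (by omega)
      omega
  have haZ : (0 : ℤ) < a := by exact_mod_cast ha
  have habZ : (a : ℤ) < b := by exact_mod_cast hab
  have hrZ : (r : ℤ) * r = a * b + 1 := by exact_mod_cast hr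
  have hr2Z : (2 : ℤ) ≤ r := by exact_mod_cast hr2
  have hcZ : (c : ℤ) = a + b + 2 * r := by exact_mod_cast hc
  have hcpos : (0 : ℤ) < c := by rw [hcZ]; linarith
  have hs : ((a : ℤ) + r - 1) * ((a : ℤ) + r + 1) = a * c := by rw [hcZ]; nlinarith
  -- gcd
  obtain ⟨g, A, δ, hg, hcop, hA, hδ⟩ :
      ∃ g A δ : ℤ, 0 < g ∧ IsCoprime A δ ∧ (a : ℤ) + r - 1 = A * g ∧ (c : ℤ) = g * δ := by
    have hne : Int.gcd ((a : ℤ) + r - 1) c ≠ 0 := by
      intro h
      have := (Int.gcd_eq_zero_iff.mp h).2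
      omega
    refine ⟨Int.gcd ((a : ℤ) + r - 1) c, ((a : ℤ) + r - 1) / Int.gcd ((a : ℤ) + r - 1) c,
      (c : ℤ) / Int.gcd ((a : ℤ) + r - 1) c, by positivity, ?_, ?_, ?_⟩
    · exact Int.isCoprime_iff_gcd_eq_one.mpr (Int.gcd_div_gcd_div_gcd (by omega))
    · exact (Int.ediv_mul_cancel (Int.gcd_dvd_left _ _)).symm
    · exact (Int.mul_ediv_cancel' (Int.gcd_dvd_right _ _)).symm
  have hApos : 0 < A := by
    have : 0 < A * g := by rw [← hA]; linarith
    exact pos_of_mul_pos_left this hg.le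
  have hδpos : 0 < δ := by
    have : 0 < g * δ := by rw [← hδ]; exact hcpos
    exact pos_of_mul_pos_right this hg.le
  -- a δ = A (s+1)
  have h1 : (a : ℤ) * δ = A * ((a : ℤ) + r + 1) := by
    have : g * ((a : ℤ) * δ) = g * (A * ((a : ℤ) + r + 1)) := by
      have h2 := hs
      rw [hA] at h2
      nlinarith
    exact mul_left_cancel₀ (ne_of_gt hg) this
  obtain ⟨B, hB⟩ : A ∣ (a : ℤ) := by
    have : A ∣ (a : ℤ) * δ := ⟨_, h1⟩
    exact hcop.dvd_of_dvd_mul_right this
  have hBδ : B * δ = (a : ℤ) + r + 1 := by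
    have : A * (B * δ) = A * ((a : ℤ) + r + 1) := by rw [← h1, hB]; ring
    exact mul_left_cancel₀ (ne_of_gt hApos) this
  have hBpos : 0 < B := by
    have : 0 < A * B := by rw [← hB]; exact haZ
    exact pos_of_mul_pos_right this hApos.le
  have hAδ : A < δ := by
    have : g * A < g * δ := by rw [← hδ, mul_comm, ← hA, hcZ]; linarith
    exact lt_of_mul_lt_mul_left this hg.le
  have hb : (b : ℤ) = (g - B) * (δ - A) := by
    have : (g - B) * (δ - A) = g * δ - A * g - B * δ + A * B := by ring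
    rw [this, ← hδ, ← hA, hBδ, ← hB, hcZ]; ring
  have hBg : B < g := by
    have h3 : 0 < (g - B) * (δ - A) := by rw [← hb]; linarith
    have h4 : 0 < g - B := pos_of_mul_pos_left h3 (by linarith)
    linarith
  refine ⟨A, B, g, δ, hApos, hBpos, hAδ, hBg, hB, hδ, by linarith, by linarith, hb, ?_⟩
  have : (r : ℤ) = A * g + 1 - A * B := by rw [← hB]; linarith
  rw [this]; ring

end Pool.Agent.DIO.H40
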