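import Pool.Agent.Helper67_Dio.Ale
import Pool.Agent.Helper67_Dio.Ini
import Pool.Agent.Helper40_Dio.Apb
import Pool.Agent.Helper14_DIO.AR1
import Pool.Agent.Helper14_DIO.NEU
import Pool.Agent.Helper40_Dio.Ar2
import Pool.Agent.Helper40_Dio.Fct
import Pool.Agent.Helper59_DIO.Bak
import Pool.Agent.Helper59_DIO.Cly
import Pool.Agent.Helper59_DIO.Cnc
import Pool.Agent.Helper59_DIO.Rng
import Pool.Agent.Helper65_Dio.CLZ
import Pool.Agent.Helper65_Dio.LAM
import Pool.Agent.Helper81_DIO.Cnb
import Pool.Agent.Helper9_Dio.Ext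
import Pool.Agent.Helper63_DIO.Fin
import Pool.Agent.Helper63_DIO.Par
import Pool.Agent.Helper18_Dio.Gap
import Pool.Agent.Helper18_Dio.Pel
import Pool.Agent.Helper44_Dio.Hin
import Pool.Agent.Helper44_Dio.Rol
import Pool.Agent.Helper38_Dio.Ind
import Pool.Agent.Helper38_Dio.Npc
import Pool.Agent.Helper19_DIO.Nse
import Pool.Agent.Helper21_DIO.Sie
import Pool.Agent.Helper21_DIO.Vdm
import Pool.Agent.Helper34_DIO.Sz
import Pool.Agent.Helper84_DIO.The

set_option autoImplicit false

namespace Pool.Agent.DIO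

theorem bakS : BakStatement :=
  H59.bak (H67.ini H21.sie) (H9.ext (H67.ale H44.rol H44.hin)) H63.par H21.vdm

theorem apbS : ApbStatement := H40A.apb bakS H59.rng H65.lam (H38.ind H59.rng)

theorem nseS : NseStatement := H19.nse H18.gap

theorem clzS : ClzStatement := H65.clz H18.pel nseS

theorem theS : TheStatement :=
  H84.the clzS (H59.cly H18.pel) H59.cnc H81.cnb H34.sz1 H34.sz2 apbS H40.fct H14.ar1 H40.ar2

theorem neuS : NeuStatement := H14.neu H18.gap (H38.npc H18.gap)

theorem finS : FinStatement := H63.fin_ theS neuS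

end Pool.Agent.DIO
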