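import Pool.Agent.Helper40_Dio.FStmt

set_option autoImplicit false

namespace Pool.Agent.DIO.H40

open Real

/-! ## growth -/

theorem growth2 (C C' : ℝ) (hC : 1 ≤ C) (hC' : 1 ≤ C') (C1 : ℕ) :
    ∃ C2 : ℕ, ∀ c c1 : ℕ, C2 < c → 1 ≤ c1 → log c ≤ C' * (log c1) ^ 61 →
      C1 < c1 ∧ (max 100 ⌈C * (log c) ^ 61⌉₊) ^ 100 ≤ c1 := by
  obtain ⟨K, hK⟩ : ∃ K : ℝ, K = 101 * C * C' ^ 61 := ⟨_, rfl⟩
  have hK1 : 1 ≤ K := by
    rw [hK]
    have h1 : (1 : ℝ) ≤ C' ^ 61 := one_le_pow₀ hC'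
    nlinarith
  have hK0 : 0 < K ^ 100 := by positivity
  have h1 := (isLittleO_pow_log_id_atTop (n := 372100)).bound (inv_pos.mpr hK0)
  obtain ⟨x0, hx0⟩ := Filter.eventually_atTop.1 h1
  obtain ⟨X, hX⟩ : ∃ X : ℝ, X = max (max x0 ((C1 : ℝ) + 1)) 3 := ⟨_, rfl⟩
  have hX3 : 3 ≤ X := by rw [hX]; exact le_max_right _ _
  have hXx : x0 ≤ X := by rw [hX]; exact (le_max_left _ _).trans (le_max_left _ _)
  have hXC : (C1 : ℝ) + 1 ≤ X := by rw [hX]; exact (le_max_right _ _).trans (le_max_left _ _)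
  refine ⟨max 3 ⌈exp (C' * (log X) ^ 61)⌉₊, fun c c1 hc hc1 hlog => ?_⟩
  have hc3 : 3 < c := lt_of_le_of_lt (le_max_left _ _) hc
  have hc3' : (3 : ℝ) < c := by exact_mod_cast hc3
  have hcX : exp (C' * (log X) ^ 61) < c := by
    have h2 : ⌈exp (C' * (log X) ^ 61)⌉₊ < c := lt_of_le_of_lt (le_max_right _ _) hc
    exact (Nat.le_ceil _).trans_lt (by exact_mod_cast h2)
  have hc1' : (1 : ℝ) ≤ c1 := by exact_mod_cast hc1
  have hlc1 : 0 ≤ log (c1 : ℝ) := log_nonneg hc1'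
  -- c1 > X
  have hX1 : X < c1 := by
    by_contra h
    have h := not_lt.mp h
    have h3 : log (c1 : ℝ) ≤ log X := log_le_log (by linarith) h
    have h4 : C' * (log (c1 : ℝ)) ^ 61 ≤ C' * (log X) ^ 61 :=
      mul_le_mul_of_nonneg_left (pow_le_pow_left₀ hlc1 h3 _) (by linarith)
    have h5 : (c : ℝ) ≤ exp (C' * (log X) ^ 61) := by
      rw [← log_le_iff_le_exp (by linarith)]
      exact hlog.trans h4
    linarith
  refine ⟨by exact_mod_cast (lt_of_lt_of_le (by linarith) hX1.le : (C1 : ℝ) < c1), ?_⟩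
  have hL1 : 1 ≤ log (c : ℝ) := by
    rw [le_log_iff_exp_le (by linarith)]
    have := exp_one_lt_d9
    linarith
  have hℓ1 : 0 ≤ log (c1 : ℝ) := hlc1
  -- Y ≤ K ℓ^3721
  have hY : ((max 100 ⌈C * (log c) ^ 61⌉₊ : ℕ) : ℝ) ≤ K * (log c1) ^ 3721 := by
    have hCL : 1 ≤ C * (log (c : ℝ)) ^ 61 := by
      have := one_le_pow₀ hL1 (n := 61)
      nlinarith
    have h2 : ((max 100 ⌈C * (log c) ^ 61⌉₊ : ℕ) : ℝ) ≤ 101 * (C * (log (c : ℝ)) ^ 61) := by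
      rw [Nat.cast_max]
      apply max_le
      · push_cast; linarith
      · have := Nat.ceil_lt_add_one (by linarith : 0 ≤ C * (log (c : ℝ)) ^ 61)
        linarith
    have h3 : (log (c : ℝ)) ^ 61 ≤ (C' * (log (c1 : ℝ)) ^ 61) ^ 61 :=
      pow_le_pow_left₀ (by linarith) hlog _
    have h4 : (C' * (log (c1 : ℝ)) ^ 61) ^ 61 = C' ^ 61 * (log (c1 : ℝ)) ^ 3721 := by
      rw [mul_pow, ← pow_mul]
    rw [h4] at h3
    calc _ ≤ 101 * (C * (log (c : ℝ)) ^ 61) := h2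
      _ ≤ 101 * (C * (C' ^ 61 * (log (c1 : ℝ)) ^ 3721)) := by
          apply mul_le_mul_of_nonneg_left _ (by norm_num)
          exact mul_le_mul_of_nonneg_left h3 (by linarith)
      _ = K * (log c1) ^ 3721 := by rw [hK]; ring
  have h5 := hx0 c1 (hXx.trans hX1.le)
  rw [id, Real.norm_of_nonneg (pow_nonneg hlc1 _), Real.norm_of_nonneg (by linarith)] at h5
  have h6 : (((max 100 ⌈C * (log c) ^ 61⌉₊) ^ 100 : ℕ) : ℝ) ≤ c1 := by
    rw [Nat.cast_pow]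
    calc ((max 100 ⌈C * (log c) ^ 61⌉₊ : ℕ) : ℝ) ^ 100 ≤ (K * (log c1) ^ 3721) ^ 100 :=
          pow_le_pow_left₀ (Nat.cast_nonneg _) hY _
      _ = K ^ 100 * (log (c1 : ℝ)) ^ 372100 := by rw [mul_pow, ← pow_mul]
      _ ≤ K ^ 100 * ((K ^ 100)⁻¹ * c1) := mul_le_mul_of_nonneg_left h5 hK0.le
      _ = c1 := by
          rw [← mul_assoc, mul_inv_cancel₀ hK0.ne', one_mul]
  exact_mod_cast h6

/-! ## quadruples -/

theorem irr_ctx {a b c d : ℕ} (h : Irr a b c d) :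
    ∃ (r s t : ℕ) (x y z : ℤ), Ctx a b c d r s t x y z := by
  obtain ⟨ha, hab, hbc, hcd, ⟨r, hr⟩, ⟨s, hs⟩, ⟨x, hx⟩, ⟨t, ht⟩, ⟨y, hy⟩, ⟨z, hz⟩, -⟩ := h
  have hpos : ∀ p q : ℕ, q + 1 = p * p → 0 < p := by
    intro p q h
    rcases Nat.eq_zero_or_pos p with h0 | h0
    · subst h0; simp at h
    · exact h0
  refine ⟨r, s, t, x, y, z, ha, hab, hbc, hcd, hr.symm, hs.symm, ht.symm,
    by exact_mod_cast hpos x _ hx, by exact_mod_cast hpos y _ hy, by exact_mod_cast hpos z _ hz,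
    ?_, ?_, ?_⟩
  · exact_mod_cast hx.symm
  · exact_mod_cast hy.symm
  · exact_mod_cast hz.symm

theorem ned_reg {a b c r s t g u v w : ℕ} (h : NEd a b c r s t g u v w) :
    ((a : ℤ) + b - c - g) ^ 2 = 4 * (a * b + 1) * (c * g + 1) := by
  have h1 : (c : ℤ) + g - a - b = 2 * (r * w) := by
    have hc : (c : ℤ) = a + b + g + 2 * a * b * g + 2 * (r * (u * v)) := by exact_mod_cast h.hc
    have hw : (w : ℤ) = g * r + u * v := by exact_mod_cast h.w_eq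
    have hr : (r : ℤ) * r = a * b + 1 := by exact_mod_cast h.hr
    rw [hc, hw]
    linear_combination (-2 * (g : ℤ)) * hr
  have hr : (r : ℤ) * r = a * b + 1 := by exact_mod_cast h.hr
  have hw : (w : ℤ) * w = c * g + 1 := by exact_mod_cast h.hw
  have h2 : ((a : ℤ) + b - c - g) ^ 2 = 4 * ((r * r) * (w * w)) := by
    have : (a : ℤ) + b - c - g = -(2 * (r * w)) := by rw [← h1]; ring
    rw [this]; ring
  rw [h2, hr, hw]; ring

/-- `f` is not a regular extension -/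
theorem not_reg {a b c r s t g u v w f : ℕ} (h : NEd a b c r s t g u v w) (hfc : f < c)
    (hfg : f ≠ g) : ¬ RegQ a b c f := by
  intro hreg
  have h1 := ned_reg h
  unfold RegQ at hreg
  have h2 : ((f : ℤ) - g) * (f + g - 2 * (a + b + c + 2 * a * b * c)) = 0 := by
    linear_combination hreg - h1
  have hgc : g < c := by
    have h3 := h.c_gt
    have h4 : 1 ≤ a * b := Nat.one_le_iff_ne_zero.mpr (Nat.mul_ne_zero h.ha.ne' h.hb.ne')
    have h5 : 1 * g ≤ a * b * g := Nat.mul_le_mul_right g h4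
    omega
  rcases mul_eq_zero.mp h2 with h3 | h3
  · exact hfg (by exact_mod_cast (sub_eq_zero.mp h3))
  · have h4 : (f : ℤ) < c := by exact_mod_cast hfc
    have h5 : (g : ℤ) < c := by exact_mod_cast hgc
    have h6 : (0 : ℤ) ≤ 2 * a * b * c := by positivity
    have h7 : (0 : ℤ) ≤ a := by positivity
    have h8 : (0 : ℤ) ≤ b := by positivity
    linarith

theorem ne_of_sq {a f F : ℕ} (ha : 0 < a) (h : F * F = a * f + 1) : f ≠ a := by
  rintro rfl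
  have h1 : f < F := by
    by_contra hh
    have hh := not_lt.mp hh
    have := Nat.mul_le_mul hh hh
    omega
  have h2 : (f + 1) * (f + 1) ≤ F * F := Nat.mul_le_mul h1 h1
  nlinarith

/-- indices of a quadruple of the remaining type -/
theorem typB_idx (sge : SgeStatement) (br1 : Br1Statement)
    {a b c d r s t g u v w : ℕ} {x y z : ℤ} {f W F1 F2 : ℕ} {ε : ℤ} {μ ν : ℕ}
    (hC : Ctx a b c d r s t x y z) (hN : NEd a b c r s t g u v w)
    (hE : TypE a b c s t x y z f W F1 F2 ε μ ν) (hf : 0 < f) (hfg : f ≠ g) :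
    ν < μ ∧ 2 ≤ ν := by
  obtain ⟨h1, h2, h3, -⟩ := sge a b c d r s t g u v w x y z f W F1 F2 ε μ ν hC hN hE hf
  have hne : μ ≠ ν := by
    intro h
    obtain ⟨h4, h5⟩ := h3 h
    subst h4
    subst h5
    subst h
    exact hfg (br1 a b c r s t g u v w x y z f W F1 F2 hC.hab hC.hbc hN hE hf)
  omega

/-- the final contradiction -/
theorem final {b1 c1 c Y : ℕ} (hb : 0 < b1) (hc : 0 < c1) (hY : 100 ≤ Y) (h1 : Y ^ 100 ≤ c1)
    (h2 : 15 * b1 ^ 2 * c1 ^ 3 ≤ c) (h3 : c ≤ Y ^ 80 * b1 * c1 ^ 2) : False := by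
  have h4 : (b1 * c1 ^ 2) * (15 * (b1 * c1)) ≤ (b1 * c1 ^ 2) * Y ^ 80 := by
    calc (b1 * c1 ^ 2) * (15 * (b1 * c1)) = 15 * b1 ^ 2 * c1 ^ 3 := by ring
      _ ≤ c := h2
      _ ≤ _ := h3
      _ = _ := by ring
  have h5 : 15 * (b1 * c1) ≤ Y ^ 80 := Nat.le_of_mul_le_mul_left h4 (by positivity)
  have h6 : c1 ≤ b1 * c1 := Nat.le_mul_of_pos_left c1 hb
  have h7 : Y ^ 80 < Y ^ 100 := Nat.pow_lt_pow_right (by omega) (by norm_num)
  omega

theorem thb (prm : PrmStatement) (apx : ApxStatement) (fdb : FdbStatement) (sge : SgeStatement)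
    (br1 : Br1Statement) (blo : BloStatement) (bex : BexStatement) : ThbStatement := by
  obtain ⟨C1, hprm⟩ := prm
  obtain ⟨C, hC, hapx⟩ := apx
  obtain ⟨C', hC', hfdb⟩ := fdb
  obtain ⟨C2, hC2⟩ := growth2 C C' hC hC' C1
  refine ⟨C2, fun a b c d f _ hc hB => ?_⟩
  obtain ⟨r, s, t, g, u, v, w, x, y, z, W, F1, F2, ε, μ, ν, hX, hN, hE, hf, hfg⟩ := hB
  obtain ⟨hνμ, hν2⟩ := typB_idx sge br1 hX hN hE hf hfg
  obtain ⟨Y, hYdef⟩ : ∃ Y : ℕ, Y = max 100 ⌈C * (log c) ^ 61⌉₊ := ⟨_, rfl⟩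
  have hY100 : 100 ≤ Y := by rw [hYdef]; exact le_max_left _ _
  have hμY : μ ≤ Y := by
    have h1 := ((hapx a b c d r s t g u v w x y z hX hN).1 f W F1 F2 ε μ ν hE).1
    have h2 : (μ : ℝ) ≤ ⌈C * (log c) ^ 61⌉₊ := h1.trans (Nat.le_ceil _)
    have h3 : μ ≤ ⌈C * (log c) ^ 61⌉₊ := by exact_mod_cast h2
    rw [hYdef]; exact h3.trans (le_max_right _ _)
  have hE' := hE
  obtain ⟨-, hW, hF1, hF2, h4f, -⟩ := hE'
  have hfc : f < c := by omega
  have hfa : f ≠ a := ne_of_sq hX.ha hF1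
  have hfb : f ≠ b := ne_of_sq hN.hb hF2
  have hnreg : ¬ RegQ a b c f := not_reg hN hfc hfg
  -- the key: any sorted version leads to a contradiction
  have key : ∀ a1 b1 c1 : ℕ, Irr a1 b1 c1 c → 
      ((b < f ∧ b1 = b ∧ c1 = f) ∨ (a < f ∧ f < b ∧ b1 = f ∧ c1 = b) ∨
        (f < a ∧ b1 = a ∧ c1 = b)) → False := by
    intro a1 b1 c1 hI hcase
    obtain ⟨r', s', t', x', y', z', hX'⟩ := irr_ctx hI
    have hlog := hfdb a1 b1 c1 c r' s' t' x' y' z' hX'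
    have hc1pos : 1 ≤ c1 := by have := hI.ha; have := hI.hab; have := hI.hbc; omega
    have hb1pos : 0 < b1 := by have := hI.ha; have := hI.hab; omega
    obtain ⟨hC1, hY1⟩ := hC2 c c1 hc hc1pos hlog
    rw [← hYdef] at hY1
    obtain ⟨f', r2, s2, t2, g', u', v', w', x2, y2, z2, W', F1', F2', ε', μ', ν', hX2, hN2, hE2,
      hf', hfg'⟩ := hprm a1 b1 c1 c hI hC1
    obtain ⟨-, hν2'⟩ := typB_idx sge br1 hX2 hN2 hE2 hf' hfg'
    have h15 := blo a1 b1 c1 c r2 s2 t2 g' u' v' w' x2 y2 z2 f' W' F1' F2' ε' μ' ν' hX2 hN2 hE2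
      hν2'
    have hb := bex a b c d r s t g u v w x y z f W F1 F2 ε μ ν Y b1 c1 hX hN hE hf hνμ hμY hY100
      hcase hY1
    exact final hb1pos hc1pos hY100 hY1 h15 hb
  rcases lt_trichotomy f a with h | h | h
  · refine key f a b ⟨hf, h, hX.hab, hX.hbc, ⟨F1, by rw [hF1]; ring⟩, ⟨F2, by rw [hF2]; ring⟩,
      ⟨W, by rw [hW]; ring⟩, ⟨r, hX.hr.symm⟩, ⟨s, hX.hs.symm⟩, ⟨t, hX.ht.symm⟩, ?_⟩
      (Or.inr (Or.inr ⟨h, rfl, rfl⟩))
    intro hreg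
    apply hnreg
    unfold RegQ at hreg ⊢
    linear_combination hreg
  · exact absurd h hfa
  · rcases lt_trichotomy f b with h' | h' | h'
    · refine key a f b ⟨hX.ha, h, h', hX.hbc, ⟨F1, hF1.symm⟩, ⟨r, hX.hr.symm⟩,
        ⟨s, hX.hs.symm⟩, ⟨F2, by rw [hF2]; ring⟩, ⟨W, by rw [hW]; ring⟩, ⟨t, hX.ht.symm⟩, ?_⟩
        (Or.inr (Or.inl ⟨h, h', rfl, rfl⟩))
      intro hreg
      apply hnreg
      unfold RegQ at hreg ⊢
      linear_combination hreg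
    · exact absurd h' hfb
    · refine key a b f ⟨hX.ha, hX.hab, h', hfc, ⟨r, hX.hr.symm⟩, ⟨F1, hF1.symm⟩,
        ⟨s, hX.hs.symm⟩, ⟨F2, hF2.symm⟩, ⟨t, hX.ht.symm⟩, ⟨W, by rw [hW]; ring⟩, ?_⟩
        (Or.inl ⟨h', rfl, rfl⟩)
      intro hreg
      apply hnreg
      unfold RegQ at hreg ⊢
      linear_combination hreg

end Pool.Agent.DIO.H40
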