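import Pool.Agent.Helper40_Dio.FStmt
import Pool.Agent.Helper40_Dio.Thb

set_option autoImplicit false

namespace Pool.Agent.DIO.H40

open Real

theorem thf (prm : PrmStatement) (thb : ThbStatement) (fdb : FdbStatement) : ThfStatement := by
  obtain ⟨C1, h1⟩ := prm
  obtain ⟨C2, h2⟩ := thb
  obtain ⟨C, hC, h3⟩ := fdb
  obtain ⟨M, hM⟩ : ∃ M : ℕ, M = max C1 C2 := ⟨_, rfl⟩
  refine ⟨⌈exp (C * (log M) ^ 61)⌉₊, fun a b c d hI => ?_⟩
  have hcM : c ≤ M := by
    by_contra h
    have h := not_le.mp h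
    obtain ⟨f, hf⟩ := h1 a b c d hI (lt_of_le_of_lt (by rw [hM]; exact le_max_left _ _) h)
    exact h2 a b c d f hI (lt_of_le_of_lt (by rw [hM]; exact le_max_right _ _) h) hf
  obtain ⟨r, s, t, x, y, z, hX⟩ := irr_ctx hI
  have h4 := h3 a b c d r s t x y z hX
  have hc1 : 1 ≤ c := by have := hI.ha; have := hI.hab; have := hI.hbc; omega
  have hc1' : (1 : ℝ) ≤ c := by exact_mod_cast hc1
  have hd0 : (0 : ℝ) < d := by
    have := hI.hcd
    exact_mod_cast (by omega : 0 < d)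
  have h5 : log (c : ℝ) ≤ log M := log_le_log (by linarith) (by exact_mod_cast hcM)
  have h6 : log (d : ℝ) ≤ C * (log M) ^ 61 :=
    h4.trans (mul_le_mul_of_nonneg_left (pow_le_pow_left₀ (log_nonneg hc1') h5 _) (by linarith))
  have h7 : (d : ℝ) ≤ exp (C * (log M) ^ 61) := by rwa [← log_le_iff_le_exp hd0]
  exact_mod_cast h7.trans (Nat.le_ceil _)

theorem regq_iff {a b c d : ℕ} (h1 : IsSquare (a * b + 1)) (h2 : IsSquare (a * c + 1))
    (h3 : IsSquare (b * c + 1)) (h : RegQ a b c d) :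
    (d : ℤ) = a + b + c + 2 * a * b * c + 2 * rst a b c ∨
      (d : ℤ) = a + b + c + 2 * a * b * c - 2 * rst a b c := by
  obtain ⟨r, hr⟩ := h1
  obtain ⟨s, hs⟩ := h2
  obtain ⟨t, ht⟩ := h3
  have h4 : rst a b c = r * s * t := by
    unfold rst
    rw [hr, hs, ht, Nat.sqrt_eq, Nat.sqrt_eq, Nat.sqrt_eq]
  rw [h4]
  have hr' : (a : ℤ) * b + 1 = r * r := by exact_mod_cast hr
  have hs' : (a : ℤ) * c + 1 = s * s := by exact_mod_cast hs
  have ht' : (b : ℤ) * c + 1 = t * t := by exact_mod_cast ht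
  unfold RegQ at h
  have h5 : ((d : ℤ) - (a + b + c + 2 * a * b * c)) ^ 2 = (2 * (r * s * t)) ^ 2 := by
    have h6 : (2 * ((r : ℤ) * s * t)) ^ 2 = 4 * ((a * b + 1) * (a * c + 1) * (b * c + 1)) := by
      rw [hr', hs', ht']; ring
    rw [h6]
    linear_combination h
  push_cast
  rcases sq_eq_sq_iff_eq_or_eq_neg.mp h5 with h6 | h6
  · left; linarith
  · right; linarith

theorem fif (thf : ThfStatement) : FifStatement := by
  obtain ⟨C0, h0⟩ := thf
  refine ⟨C0, fun a b c d hT hE hn => ?_⟩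
  obtain ⟨ha, hab, hbc, sab, sac, sbc⟩ := hT
  obtain ⟨hd, hda, hdb, hdc, sad, sbd, scd⟩ := hE
  have hreg : ¬ RegQ a b c d := fun h => hn (regq_iff sab sac sbc h)
  have sda : IsSquare (d * a + 1) := by rwa [mul_comm]
  have sdb : IsSquare (d * b + 1) := by rwa [mul_comm]
  have sdc : IsSquare (d * c + 1) := by rwa [mul_comm]
  rcases lt_trichotomy d a with h | h | h
  · have hI : Irr d a b c := ⟨hd, h, hab, hbc, sda, sdb, sdc, sab, sac, sbc, fun hr => hreg (by
      unfold RegQ at hr ⊢; linear_combination hr)⟩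
    have := h0 _ _ _ _ hI
    omega
  · exact absurd h hda
  rcases lt_trichotomy d b with h' | h' | h'
  · have hI : Irr a d b c := ⟨ha, h, h', hbc, sad, sab, sac, sdb, sdc, sbc, fun hr => hreg (by
      unfold RegQ at hr ⊢; linear_combination hr)⟩
    have := h0 _ _ _ _ hI
    omega
  · exact absurd h' hdb
  rcases lt_trichotomy d c with h'' | h'' | h''
  · have hI : Irr a b d c := ⟨ha, hab, h', h'', sab, sad, sac, sbd, sbc, sdc, fun hr => hreg (by
      unfold RegQ at hr ⊢; linear_combination hr)⟩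
    have := h0 _ _ _ _ hI
    omega
  · exact absurd h'' hdc
  · have hI : Irr a b c d := ⟨ha, hab, hbc, h'', sab, sac, sad, sbc, sbd, scd, hreg⟩
    have := h0 _ _ _ _ hI
    omega

end Pool.Agent.DIO.H40
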