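import Pool.Agent.Helper40_Dio.MainE
import Pool.Agent.Helper40_Dio.FStmt
import Pool.Agent.Helper40_Dio.Thb
import Pool.Agent.Helper40_Dio.Thf
import Pool.Agent.Helper7_Dio.SGE
import Pool.Agent.Helper7_Dio.SGS
import Pool.Agent.Helper7_Dio.MCE
import Pool.Agent.Helper76_DIO.CLG
import Pool.Agent.Helper76_DIO.NET
import Pool.Agent.Helper18_Dio.Cll
import Pool.Agent.Helper18_Dio.Fdb
import Pool.Agent.Helper85_DIO.Irr
import Pool.Agent.Helper69_DIO.Pg1
import Pool.Agent.Helper94_DIO.Pg3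
import Pool.Agent.Helper98_DIO.Prm
import Pool.Agent.Helper50_DIO.Ps1
import Pool.Agent.Helper41_DIO.Ps2
import Pool.Agent.Helper87_Dio.Ps3
import Pool.Agent.Helper41_DIO.Ps4
import Pool.Agent.Helper85_DIO.Ps5
import Pool.Agent.Helper46_DIO.Qts
import Pool.Agent.Helper67_Dio.Qtt
import Pool.Agent.Helper50_DIO.Pt1
import Pool.Agent.Helper87_Dio.Pt3
import Pool.Agent.Helper98_DIO.Br1
import Pool.Agent.Helper13_DIO.Blo
import Pool.Agent.Helper75_DIO.Mcs
import Pool.Agent.Helper69_DIO.Mct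
import Pool.Agent.Helper50_DIO.Mbs
import Pool.Agent.Helper59_DIO.Apx
import Pool.Agent.Helper58_Dio.Pr1
import Pool.Agent.Helper58_Dio.Qte
import Pool.Agent.Helper94_DIO.Ps7
import Pool.Agent.Helper4_Dio.Ps8
import Pool.Agent.Helper4_Dio.Bex

set_option autoImplicit false

namespace Pool.Agent.DIO

theorem irrS : IrrStatement := H85.irr

theorem netS : NetStatement := H76.net

theorem clgS : ClgStatement := H76.clg H18.pel

theorem cllS : CllStatement := H18.cll H18.pel

theorem fdbS : FdbStatement := H18.fdb H18.pel apbS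

theorem apxS : ApxStatement := H59.apx apbS fdbS

theorem mceS : MceStatement := H7.mce

theorem sgeS : SgeStatement := H7.sge

theorem qttS : QttStatement := H67.qtt apxS H69.mct (H50.pt1 irrS) H87.pt3

theorem qteS : QteStatement :=
  H58.qte apxS mceS sgeS (H58.pr1 irrS) (H69.pg1 irrS) (H94.pg3 netS irrS)

theorem qtsS : QtsStatement :=
  H46.qts netS apxS cllS H75.mcs H50.mbs H7.sgs (H50.ps1 irrS) H41.ps2 H87.ps3 H41.ps4
    (H85.ps5 irrS) (H85.ps6 irrS) H94.ps7 (H4.ps8 netS)

theorem prmS : PrmStatement := H98.prm netS theS clgS qteS qttS qtsS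

theorem thbS : ThbStatement :=
  H40.thb prmS apxS fdbS sgeS (H98.br1 mceS) H13.blo (H4B.bex netS nseS mceS irrS)

theorem thfS : ThfStatement := H40.thf prmS thbS fdbS

theorem fifS : FifStatement := H40.fif thfS

end Pool.Agent.DIO
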